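import Mathlib

/-!
# EULER, block NC (near cliques): the arc integral

`V` is a finite set of vertices with a base vertex `b`; the angles are `t : {v // v ≠ b} → ℝ`,
extended by `0` at `b`.  Edges are elements of `Sym2 V`.
-/

open Finset MeasureTheory

namespace MP_a3e05c_co.NC

variable {V : Type}

/-- cosine of the difference along an edge -/
noncomputable def cd (θ : V → ℝ) : Sym2 V → ℝ :=
  Sym2.lift ⟨fun u v => Real.cos (θ u - θ v), fun u v => by
    show Real.cos (θ u - θ v) = Real.cos (θ v - θ u)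
    rw [← Real.cos_neg]; congr 1; ring⟩

/-- square of the difference along an edge -/
def sd (θ : V → ℝ) : Sym2 V → ℝ :=
  Sym2.lift ⟨fun u v => (θ u - θ v) ^ 2, fun u v => by
    show (θ u - θ v) ^ 2 = (θ v - θ u) ^ 2
    ring⟩

@[simp] theorem cd_mk (θ : V → ℝ) (u v : V) : cd θ s(u, v) = Real.cos (θ u - θ v) := rfl

@[simp] theorem sd_mk (θ : V → ℝ) (u v : V) : sd θ s(u, v) = (θ u - θ v) ^ 2 := rfl

variable [DecidableEq V]

/-- extension by `0` at the base vertex -/
def ext (b : V) (t : {v // v ≠ b} → ℝ) : V → ℝ := fun v => if h : v = b then 0 else t ⟨v, h⟩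

/-- all differences of angles are at most `π / 2` -/
def arc (b : V) : Set ({v // v ≠ b} → ℝ) := {t | ∀ u v, |ext b t u - ext b t v| ≤ Real.pi / 2}

/-- all angles are at most `π / 2` -/
def box (b : V) : Set ({v // v ≠ b} → ℝ) := {t | ∀ v, |t v| ≤ Real.pi / 2}

/-- degree of `v` in the graph with edge set `F` -/
def fd (F : Finset (Sym2 V)) (v : V) : ℕ := (F.filter fun e => v ∈ e).card

variable [Fintype V]

variable (V) in
/-- the edges of the complete graph -/
def KE : Finset (Sym2 V) := univ.filter fun e => ¬ e.IsDiag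

theorem mem_KE {e : Sym2 V} : e ∈ KE V ↔ ¬ e.IsDiag := by simp [KE]

/-- the arc integral of the graph with edge set `E` -/
noncomputable def Z (b : V) (E : Finset (Sym2 V)) : ℝ :=
  ∫ t in arc b, ∏ e ∈ E, cd (ext b t) e

/-- the loss for removing the edges of `F` from the complete graph (`fd F v ≤ M`) -/
noncomputable def XF (F : Finset (Sym2 V)) (M : ℕ) : ℝ :=
  ∑ v, ((1 / 2 : ℝ) * ∑ k ∈ Icc 1 (fd F v), 1 / ((Fintype.card V : ℝ) - 1 - k) +
    (fd F v : ℝ) * ((fd F v : ℝ) - 1) /
      (4 * ((Fintype.card V : ℝ) - 2 - 2 * M) * ((Fintype.card V : ℝ) - 1 - M) ^ 2))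

end MP_a3e05c_co.NC
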