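import Pool.Agent.Lib.MP_a3e05c_co.NC.Defs
import Pool.Agent.Lib.MP_a3e05c_co.BL.Graph

/-!
# EULER, block NC: the edge step on the arc domain, for sets of unordered pairs
-/

open MeasureTheory Set

namespace MP_a3e05c_co.NC

variable {V : Type}

theorem stp_cd (th : V → ℝ) (e : Sym2 V) :
    cd th e = Real.cos (th (Quot.out e).1 - th (Quot.out e).2) := by
  conv_lhs => rw [← Quot.out_eq e]
  rfl

theorem stp_sd (th : V → ℝ) (e : Sym2 V) :
    sd th e = (th (Quot.out e).1 - th (Quot.out e).2) ^ 2 := by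
  conv_lhs => rw [← Quot.out_eq e]
  rfl

variable [DecidableEq V]

theorem stp_ext (b : V) (t : {v : V // v ≠ b} → ℝ) (v : V) : ext b t v = BL.ext b t v := rfl

theorem stp_arc (b : V) : arc b = BL.arc b := rfl

variable [Fintype V]

theorem arc_measurableSet (b : V) : MeasurableSet (arc b) := BL.arc_measurable b

theorem stp_Z (b : V) (E : Finset (Sym2 V)) :
    Z b E = BL.Z b (fun e : Sym2 V => (Quot.out e : V × V)) E := by
  unfold Z BL.Z BL.cw
  refine integral_congr_ae (Filter.Eventually.of_forall fun t => ?_)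
  exact Finset.prod_congr rfl fun e _ => stp_cd (ext b t) e

theorem Z_nonneg (b : V) (E : Finset (Sym2 V)) : 0 ≤ Z b E := by
  rw [stp_Z]
  exact BL.Z_nonneg _ _ _

/-- **one step**: adding the edge `u v` -/
theorem Z_step (b : V) (E : Finset (Sym2 V)) {u v : V} (huv : s(u, v) ∉ E) {R : ℝ} (hR : 0 < R)
    (h : ∀ th : V → ℝ, (th u - th v) ^ 2 ≤ R * ∑ e ∈ E, sd th e) :
    Real.exp (-R / 2) * Z b E ≤ Z b (insert s(u, v) E) := by
  have h1 := BL.Z_step b (fun e : Sym2 V => (Quot.out e : V × V)) E huv hR (fun t => by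
    have h2 := h (BL.ext b t)
    have h3 : (BL.ext b t u - BL.ext b t v) ^ 2 = sd (BL.ext b t) s(u, v) := rfl
    rw [h3, stp_sd] at h2
    simp only [stp_sd] at h2
    exact h2)
  rw [stp_Z, stp_Z]
  exact h1

end MP_a3e05c_co.NC
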