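import Pool.Agent.Lib.MP_a3e05c_co.NC.Res
import Pool.Agent.Lib.MP_a3e05c_co.NC.Step

/-!
# EULER, block NC: the arc integral of a nearly complete graph
-/

open Finset

namespace MP_a3e05c_co.NC

variable {V : Type} [Fintype V] [DecidableEq V]

omit [Fintype V] in
theorem fd_insert {F : Finset (Sym2 V)} {e : Sym2 V} (he : e ∉ F) (v : V) :
    fd (insert e F) v = fd F v + if v ∈ e then 1 else 0 := by
  unfold fd
  rw [filter_insert]
  split_ifs with h
  · rw [card_insert_of_notMem]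
    intro h1
    exact he (mem_filter.1 h1).1
  · rfl

theorem RR_pos {F : Finset (Sym2 V)} {M : ℕ} (hM : ∀ v, fd F v ≤ M)
    (hn : 2 * M + 2 < Fintype.card V) {a b : V} (hab : s(a, b) ∈ F) : 0 < RR F M a b := by
  have hMa : (fd F a : ℝ) ≤ M := by exact_mod_cast hM a
  have hMb : (fd F b : ℝ) ≤ M := by exact_mod_cast hM b
  have hn' : 2 * (M : ℝ) + 2 < Fintype.card V := by exact_mod_cast hn
  have hM0 : (0 : ℝ) ≤ M := by positivity
  have h1 : 1 ≤ fd F a := by
    unfold fd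
    exact card_pos.2 ⟨s(a, b), by rw [mem_filter]; exact ⟨hab, Sym2.mem_mk_left _ _⟩⟩
  have h2 : 1 ≤ fd F b := by
    unfold fd
    exact card_pos.2 ⟨s(a, b), by rw [mem_filter]; exact ⟨hab, Sym2.mem_mk_right _ _⟩⟩
  have h1' : (1 : ℝ) ≤ fd F a := by exact_mod_cast h1
  have h2' : (1 : ℝ) ≤ fd F b := by exact_mod_cast h2
  unfold RR
  have e1 : 0 < (Fintype.card V : ℝ) - 1 - fd F a := by linarith
  have e2 : 0 < (Fintype.card V : ℝ) - 1 - fd F b := by linarith
  have e3 : 0 < (Fintype.card V : ℝ) - 2 - 2 * M := by linarith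
  have e4 : 0 ≤ (fd F a : ℝ) + fd F b - 2 := by linarith
  have e5 : 0 ≤ ((fd F a : ℝ) + fd F b - 2) / (((Fintype.card V : ℝ) - 2 - 2 * M) *
      (((Fintype.card V : ℝ) - 1 - fd F a) * ((Fintype.card V : ℝ) - 1 - fd F b))) := by
    positivity
  have e6 : 0 < 1 / ((Fintype.card V : ℝ) - 1 - fd F a) := by positivity
  have e7 : 0 < 1 / ((Fintype.card V : ℝ) - 1 - fd F b) := by positivity
  linarith

/-- the vertex term of `XF` -/
noncomputable def xt (n : ℝ) (M f : ℕ) : ℝ :=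
  (1 / 2 : ℝ) * ∑ k ∈ Icc 1 f, 1 / (n - 1 - k) +
    (f : ℝ) * ((f : ℝ) - 1) / (4 * (n - 2 - 2 * M) * (n - 1 - M) ^ 2)

theorem XF_eq (F : Finset (Sym2 V)) (M : ℕ) : XF F M = ∑ v, xt (Fintype.card V) M (fd F v) := rfl

theorem xt_succ (n : ℝ) (M f : ℕ) : xt n M (f + 1) = xt n M f +
    ((1 / 2 : ℝ) * (1 / (n - 1 - (f + 1 : ℕ))) + (2 * f) / (4 * (n - 2 - 2 * M) * (n - 1 - M) ^ 2)) := by
  unfold xt
  rw [Finset.sum_Icc_succ_top (by omega)]
  push_cast
  ring

theorem XF_insert {F : Finset (Sym2 V)} {M : ℕ} {a b : V} (hab : a ≠ b) (h : s(a, b) ∉ F)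
    (hM : ∀ v, fd (insert s(a, b) F) v ≤ M) (hn : 2 * M + 2 < Fintype.card V) :
    XF F M + RR (insert s(a, b) F) M a b / 2 ≤ XF (insert s(a, b) F) M := by
  have hfa : fd (insert s(a, b) F) a = fd F a + 1 := by
    rw [fd_insert h, if_pos (Sym2.mem_mk_left _ _)]
  have hfb : fd (insert s(a, b) F) b = fd F b + 1 := by
    rw [fd_insert h, if_pos (Sym2.mem_mk_right _ _)]
  have hfo : ∀ v, v ≠ a → v ≠ b → fd (insert s(a, b) F) v = fd F v := by
    intro v h1 h2
    rw [fd_insert h, if_neg, add_zero]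
    rw [Sym2.mem_iff]
    tauto
  set n : ℝ := (Fintype.card V : ℝ) with hnn
  have hn' : 2 * (M : ℝ) + 2 < n := by rw [hnn]; exact_mod_cast hn
  have hM0 : (0 : ℝ) ≤ M := by positivity
  have hMa : (fd F a : ℝ) + 1 ≤ M := by have := hM a; rw [hfa] at this; exact_mod_cast this
  have hMb : (fd F b : ℝ) + 1 ≤ M := by have := hM b; rw [hfb] at this; exact_mod_cast this
  have hfa0 : (0 : ℝ) ≤ fd F a := by positivity
  have hfb0 : (0 : ℝ) ≤ fd F b := by positivity
  have split : ∀ g : V → ℝ, ∑ x, g x = g a + (g b + ∑ x ∈ (univ.erase a).erase b, g x) := by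
    intro g
    rw [← Finset.add_sum_erase univ g (mem_univ a),
      ← Finset.add_sum_erase (univ.erase a) g (mem_erase.2 ⟨hab.symm, mem_univ b⟩)]
  rw [XF_eq, XF_eq, split, split fun v => xt (Fintype.card V) M (fd (insert s(a, b) F) v)]
  have h1 : ∑ x ∈ (univ.erase a).erase b, xt (Fintype.card V) M (fd (insert s(a, b) F) x) =
      ∑ x ∈ (univ.erase a).erase b, xt (Fintype.card V) M (fd F x) := by
    refine Finset.sum_congr rfl fun x hx => ?_
    rw [mem_erase, mem_erase] at hx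
    rw [hfo x hx.2.1 hx.1]
  rw [h1]
  simp only [hfa, hfb, xt_succ, ← hnn]
  unfold RR
  rw [hfa, hfb, ← hnn]
  push_cast
  have e1 : 0 < n - 1 - (fd F a + 1) := by linarith
  have e2 : 0 < n - 1 - (fd F b + 1) := by linarith
  have e3 : 0 < n - 2 - 2 * M := by linarith
  have e4 : 0 < n - 1 - M := by linarith
  have key : ((fd F a : ℝ) + 1 + (fd F b + 1) - 2) / ((n - 2 - 2 * M) *
      ((n - 1 - (fd F a + 1)) * (n - 1 - (fd F b + 1)))) / 2 ≤
      2 * (fd F a : ℝ) / (4 * (n - 2 - 2 * M) * (n - 1 - M) ^ 2) +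
      2 * (fd F b : ℝ) / (4 * (n - 2 - 2 * M) * (n - 1 - M) ^ 2) := by
    have h2 : 2 * (fd F a : ℝ) / (4 * (n - 2 - 2 * M) * (n - 1 - M) ^ 2) +
      2 * (fd F b : ℝ) / (4 * (n - 2 - 2 * M) * (n - 1 - M) ^ 2) =
      ((fd F a : ℝ) + fd F b) / ((n - 2 - 2 * M) * (n - 1 - M) ^ 2) / 2 := by
      field_simp
      ring
    rw [h2]
    apply div_le_div_of_nonneg_right _ (by norm_num)
    have h3 : (fd F a : ℝ) + 1 + (fd F b + 1) - 2 = fd F a + fd F b := by ring
    rw [h3]
    apply div_le_div_of_nonneg_left (by linarith) (by positivity)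
    apply mul_le_mul_of_nonneg_left _ e3.le
    rw [sq]
    apply mul_le_mul (by linarith) (by linarith) e4.le e1.le
  have h4 : (1 / (n - 1 - ((fd F a : ℝ) + 1)) + 1 / (n - 1 - ((fd F b : ℝ) + 1)) +
      ((fd F a : ℝ) + 1 + (fd F b + 1) - 2) / ((n - 2 - 2 * M) *
      ((n - 1 - (fd F a + 1)) * (n - 1 - (fd F b + 1))))) / 2 =
      1 / 2 * (1 / (n - 1 - ((fd F a : ℝ) + 1))) + 1 / 2 * (1 / (n - 1 - ((fd F b : ℝ) + 1))) +
      ((fd F a : ℝ) + 1 + (fd F b + 1) - 2) / ((n - 2 - 2 * M) *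
      ((n - 1 - (fd F a + 1)) * (n - 1 - (fd F b + 1)))) / 2 := by
    ring
  rw [h4]
  linarith

/-- abstract form: every functional `W` with the edge step -/
theorem ratio_abs (W : Finset (Sym2 V) → ℝ) {M : ℕ} (hn : 2 * M + 2 < Fintype.card V)
    (F : Finset (Sym2 V)) (hF : F ⊆ KE V) (hM : ∀ v, fd F v ≤ M)
    (hW : ∀ F' ⊆ F, 0 ≤ W (KE V \ F')) (hstep : ∀ F' ⊆ F, ∀ u v, s(u, v) ∈ F' → ∀ R : ℝ, 0 < R →
      (∀ θ : V → ℝ, (θ u - θ v) ^ 2 ≤ R * ∑ e ∈ KE V \ F', sd θ e) →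
      Real.exp (-R / 2) * W (KE V \ F') ≤ W (insert s(u, v) (KE V \ F'))) :
    Real.exp (-(XF F M)) * W (KE V \ F) ≤ W (KE V) := by
  induction F using Finset.induction_on with
  | empty =>
    have h1 : XF (∅ : Finset (Sym2 V)) M = 0 := by
      rw [XF_eq]
      refine Finset.sum_eq_zero fun v _ => ?_
      simp [xt, fd]
    rw [h1, sdiff_empty]
    simp
  | insert e F he ih =>
    have hF' : F ⊆ KE V := (subset_insert e F).trans hF
    have hM' : ∀ v, fd F v ≤ M := fun v => by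
      refine le_trans ?_ (hM v)
      rw [fd_insert he]
      exact Nat.le_add_right _ _
    have ih' := ih hF' hM' (fun F' h1 => hW F' (h1.trans (subset_insert e F)))
      fun F' h1 => hstep F' (h1.trans (subset_insert e F))
    have heK : e ∈ KE V := hF (mem_insert_self e F)
    induction e using Sym2.ind with
    | _ a b =>
      have hab : a ≠ b := by
        have := mem_KE.1 heK
        simpa using this
      have hmem : s(a, b) ∈ insert s(a, b) F := mem_insert_self _ _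
      have h1 := hstep _ subset_rfl a b hmem (RR (insert s(a, b) F) M a b)
        (RR_pos hM hn hmem) fun θ => res_bound hF hM hn hmem θ
      have h2 : insert s(a, b) (KE V \ insert s(a, b) F) = KE V \ F := by
        ext x
        rw [mem_insert, mem_sdiff, mem_sdiff, mem_insert]
        constructor
        · rintro (h | h)
          · subst h; exact ⟨heK, he⟩
          · exact ⟨h.1, fun h3 => h.2 (Or.inr h3)⟩
        · rintro ⟨h3, h4⟩
          by_cases h5 : x = s(a, b)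
          · exact Or.inl h5
          · exact Or.inr ⟨h3, fun h6 => h6.elim h5 h4⟩
      rw [h2] at h1
      have h3 := XF_insert hab he hM hn
      have h4 : Real.exp (-(XF F M)) * (Real.exp (-(RR (insert s(a, b) F) M a b) / 2) *
          W (KE V \ insert s(a, b) F)) ≤ W (KE V) :=
        (mul_le_mul_of_nonneg_left h1 (Real.exp_pos _).le).trans ih'
      rw [← mul_assoc, ← Real.exp_add] at h4
      refine le_trans (mul_le_mul_of_nonneg_right ?_ (hW _ subset_rfl)) h4
      rw [Real.exp_le_exp]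
      linarith

/-- **the arc integral of a nearly complete graph** -/
theorem arc_ratio (b : V) {M : ℕ} (hn : 2 * M + 2 < Fintype.card V)
    (F : Finset (Sym2 V)) (hF : F ⊆ KE V) (hM : ∀ v, fd F v ≤ M) :
    Real.exp (-(XF F M)) * Z b (KE V \ F) ≤ Z b (KE V) := by
  refine ratio_abs (Z b) hn F hF hM (fun _ _ => Z_nonneg b _) fun F' _ u v h R hR hq => ?_
  refine Z_step b _ (fun h1 => ?_) hR hq
  exact (mem_sdiff.1 h1).2 h

end MP_a3e05c_co.NC
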