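import Pool.Agent.Lib.MP_a3e05c_co.NC.Step
import Pool.Agent.Lib.MP_a3e05c_co.BL.Cut

/-!
# EULER, block NC: the edge step on the domain given by the present edges
-/

open MeasureTheory Set

namespace MP_a3e05c_co.NC

/-- the cosine cut off at `π / 2` -/
noncomputable def ct (u : ℝ) : ℝ := if |u| ≤ Real.pi / 2 then Real.cos u else 0

theorem ct_nonneg (u : ℝ) : 0 ≤ ct u := by
  unfold ct
  split_ifs with h
  · have := abs_le.mp h
    exact Real.cos_nonneg_of_neg_pi_div_two_le_of_le this.1 this.2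
  · exact le_rfl

theorem ct_le_one (u : ℝ) : ct u ≤ 1 := by
  unfold ct
  split_ifs
  · exact Real.cos_le_one u
  · exact zero_le_one

variable {V : Type}

/-- cut cosine of the difference along an edge -/
noncomputable def cc (th : V → ℝ) : Sym2 V → ℝ :=
  Sym2.lift ⟨fun u v => ct (th u - th v), fun u v => by
    show ct (th u - th v) = ct (th v - th u)
    unfold ct
    rw [abs_sub_comm, ← Real.cos_neg, neg_sub]⟩

/-- absolute value of the difference along an edge -/
def ad (th : V → ℝ) : Sym2 V → ℝ :=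
  Sym2.lift ⟨fun u v => |th u - th v|, fun u v => abs_sub_comm _ _⟩

@[simp] theorem cc_mk (th : V → ℝ) (u v : V) : cc th s(u, v) = ct (th u - th v) := rfl

@[simp] theorem ad_mk (th : V → ℝ) (u v : V) : ad th s(u, v) = |th u - th v| := rfl

theorem stp_cc (th : V → ℝ) (e : Sym2 V) :
    cc th e = ct (th (Quot.out e).1 - th (Quot.out e).2) := by
  conv_lhs => rw [← Quot.out_eq e]
  rfl

theorem cc_nonneg (th : V → ℝ) (e : Sym2 V) : 0 ≤ cc th e := by
  rw [stp_cc]; exact ct_nonneg _

theorem cc_le_one (th : V → ℝ) (e : Sym2 V) : cc th e ≤ 1 := by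
  rw [stp_cc]; exact ct_le_one _

theorem cc_eq (th : V → ℝ) (e : Sym2 V) : cc th e = if ad th e ≤ Real.pi / 2 then cd th e else 0 := by
  induction e with
  | h u v => rfl

variable [DecidableEq V]

/-- differences along the edges in `E` are at most `π / 2` -/
def arcE (b : V) (E : Finset (Sym2 V)) : Set ({v // v ≠ b} → ℝ) :=
  {t | ∀ e ∈ E, ad (ext b t) e ≤ Real.pi / 2}

variable [Fintype V]

/-- the integral over the domain given by the edges -/
noncomputable def ZE (b : V) (E : Finset (Sym2 V)) : ℝ :=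
  ∫ t in arcE b E, ∏ e ∈ E, cd (ext b t) e

theorem stpF_meas (b : V) (e : Sym2 V) : Measurable fun t => ad (ext b t) e := by
  induction e with
  | h u v =>
    have h1 : Measurable fun t => BL.dif b u v t :=
      (BL.dif b u v).continuous_of_finiteDimensional.measurable
    exact continuous_abs.measurable.comp h1

theorem arcE_measurableSet (b : V) (E : Finset (Sym2 V)) : MeasurableSet (arcE b E) := by
  have : arcE b E = ⋂ e ∈ E, {t | ad (ext b t) e ≤ Real.pi / 2} := by
    ext t
    simp only [arcE, mem_ofPred_eq, mem_iInter]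
  rw [this]
  exact Finset.measurableSet_biInter _ fun e _ => measurableSet_le (stpF_meas b e) measurable_const

/-- the same as an integral over the whole space -/
theorem ZE_eq (b : V) (E : Finset (Sym2 V)) : ZE b E = ∫ t, ∏ e ∈ E, cc (ext b t) e := by
  unfold ZE
  rw [← integral_indicator (arcE_measurableSet b E)]
  refine integral_congr_ae (Filter.Eventually.of_forall fun t => ?_)
  show (arcE b E).indicator (fun t => ∏ e ∈ E, cd (ext b t) e) t = ∏ e ∈ E, cc (ext b t) e
  by_cases ht : t ∈ arcE b E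
  · rw [indicator_of_mem ht]
    refine Finset.prod_congr rfl fun e he => ?_
    rw [cc_eq, if_pos (ht e he)]
  · rw [indicator_of_notMem ht]
    have h1 : ∃ e ∈ E, ¬ ad (ext b t) e ≤ Real.pi / 2 := by
      by_contra hcon
      push Not at hcon
      exact ht hcon
    obtain ⟨e, he, h2⟩ := h1
    exact (Finset.prod_eq_zero he (by rw [cc_eq, if_neg h2])).symm

theorem ZE_nonneg (b : V) (E : Finset (Sym2 V)) : 0 ≤ ZE b E := by
  rw [ZE_eq]
  exact integral_nonneg fun t => Finset.prod_nonneg fun e _ => cc_nonneg _ e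

/-- on the complete graph (and on every graph) the arc domain is contained in `arcE` -/
theorem arc_subset_arcE (b : V) (E : Finset (Sym2 V)) : arc b ⊆ arcE b E := by
  intro t ht e _
  induction e with
  | h u v => exact ht u v

theorem ZE_KE (b : V) : ZE b (KE V) = Z b (KE V) := by
  unfold ZE Z
  congr 1
  have : arcE b (KE V) = arc b := by
    refine Subset.antisymm (fun t ht u v => ?_) (arc_subset_arcE b _)
    by_cases huv : u = v
    · rw [huv, sub_self, abs_zero]
      exact (div_pos Real.pi_pos two_pos).le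
    · exact ht s(u, v) (mem_KE.mpr (by simpa using huv))
  rw [this]

theorem stpF_LC (b : V) (E : Finset (Sym2 V)) (u v : V) {R : ℝ} (hR : 0 < R)
    (hb : ∀ w, w ≠ b → s(b, w) ∈ E)
    (h : ∀ th : V → ℝ, (th u - th v) ^ 2 ≤ R * ∑ e ∈ E, sd th e) :
    BL.LC fun t => (∏ e ∈ E, cc (ext b t) e) *
      Real.exp (BL.dif b u v t ^ 2 / (2 * R)) := by
  classical
  let p : Sym2 V → V × V := fun e => (Quot.out e : V × V)
  have h2 : BL.EL fun t => ∏ e ∈ E, BL.cg (BL.dif b (p e).1 (p e).2 t) :=
    BL.EL.prod E fun e _ => BL.EL.cg _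
  have h3 := BL.EL.exp_quad (E := {e // e ∈ E}) (fun e => BL.dif b (p e.1).1 (p e.1).2)
    (BL.dif b u v) hR
    (fun t => by
      rw [Finset.sum_coe_sort E fun e => BL.dif b (p e).1 (p e).2 t ^ 2]
      have h4 := h (ext b t)
      simp only [stp_sd] at h4
      exact h4)
  have h4 := h2.mul h3
  have e1 : (fun t => (∏ e ∈ E, cc (ext b t) e) * Real.exp (BL.dif b u v t ^ 2 / (2 * R))) =
      fun t => (∏ e ∈ E, BL.cg (BL.dif b (p e).1 (p e).2 t)) *
        Real.exp (-((∑ e : {e // e ∈ E}, BL.dif b (p e.1).1 (p e.1).2 t ^ 2) / 2 -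
          BL.dif b u v t ^ 2 / (2 * R))) := by
    funext t
    rw [Finset.sum_coe_sort E fun e => BL.dif b (p e).1 (p e).2 t ^ 2]
    have e2 : ∏ e ∈ E, BL.cg (BL.dif b (p e).1 (p e).2 t) =
        (∏ e ∈ E, cc (ext b t) e) *
          Real.exp ((∑ e ∈ E, BL.dif b (p e).1 (p e).2 t ^ 2) / 2) := by
      rw [Finset.sum_div, Real.exp_sum, ← Finset.prod_mul_distrib]
      refine Finset.prod_congr rfl fun e _ => ?_
      rw [stp_cc]
      show BL.cg (ext b t (p e).1 - ext b t (p e).2) =
        ct (ext b t (p e).1 - ext b t (p e).2) *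
          Real.exp ((ext b t (p e).1 - ext b t (p e).2) ^ 2 / 2)
      unfold BL.cg ct
      split_ifs
      · rfl
      · rw [zero_mul]
    rw [e2, mul_assoc, ← Real.exp_add]
    congr 2
    ring
  have hsupp : ∀ t, (∏ e ∈ E, cc (ext b t) e) ≠ 0 → ∀ i, |t i| ≤ Real.pi / 2 := by
    intro t ht i
    have h5 : cc (ext b t) s(b, i.1) ≠ 0 := fun h6 =>
      ht (Finset.prod_eq_zero (hb i.1 i.2) h6)
    have h7 : ad (ext b t) s(b, i.1) ≤ Real.pi / 2 := by
      by_contra h8
      rw [cc_eq, if_neg h8] at h5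
      exact h5 rfl
    rw [ad_mk] at h7
    have h9 : ext b t b = 0 := dif_pos rfl
    have h10 : ext b t i.1 = t i := dif_neg i.2
    rw [h9, h10, zero_sub, abs_neg] at h7
    exact h7
  rw [e1]
  refine h4.toLC ⟨Real.pi / 2, fun t ht i => ?_⟩ ⟨Real.exp (Real.pi ^ 2 / (2 * R)), fun t => ?_⟩
  · have h5 := congrFun e1 t
    have h6 : (∏ e ∈ E, cc (ext b t) e) * Real.exp (BL.dif b u v t ^ 2 / (2 * R)) ≠ 0 := by
      intro h7
      exact ht (h5.symm.trans h7)
    exact hsupp t (left_ne_zero_of_mul h6) i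
  · refine le_of_eq_of_le (congrFun e1 t).symm ?_
    show (∏ e ∈ E, cc (ext b t) e) * Real.exp (BL.dif b u v t ^ 2 / (2 * R)) ≤ _
    by_cases ht : (∏ e ∈ E, cc (ext b t) e) = 0
    · rw [ht, zero_mul]
      exact (Real.exp_pos _).le
    · have h5 : (∏ e ∈ E, cc (ext b t) e) ≤ 1 :=
        Finset.prod_le_one (fun e _ => cc_nonneg _ e) fun e _ => cc_le_one _ e
      have h8 : ∀ w, |ext b t w| ≤ Real.pi / 2 := by
        intro w
        by_cases hw : w = b
        · have h9 : ext b t w = 0 := dif_pos hw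
          rw [h9, abs_zero]
          exact (div_pos Real.pi_pos two_pos).le
        · have h10 : ext b t w = t ⟨w, hw⟩ := dif_neg hw
          rw [h10]
          exact hsupp t ht ⟨w, hw⟩
      have h6 : BL.dif b u v t ^ 2 ≤ Real.pi ^ 2 := by
        rw [← sq_abs (BL.dif b u v t)]
        refine pow_le_pow_left₀ (abs_nonneg _) ?_ 2
        have h9 := h8 u
        have h10 := h8 v
        calc |BL.dif b u v t| = |ext b t u - ext b t v| := rfl
          _ ≤ |ext b t u| + |ext b t v| := abs_sub _ _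
          _ ≤ Real.pi / 2 + Real.pi / 2 := add_le_add h9 h10
          _ = Real.pi := by ring
      have h7 : Real.exp (BL.dif b u v t ^ 2 / (2 * R)) ≤ Real.exp (Real.pi ^ 2 / (2 * R)) := by
        rw [Real.exp_le_exp]
        exact div_le_div_of_nonneg_right h6 (by positivity)
      calc (∏ e ∈ E, cc (ext b t) e) * Real.exp (BL.dif b u v t ^ 2 / (2 * R))
          ≤ 1 * Real.exp (BL.dif b u v t ^ 2 / (2 * R)) :=
            mul_le_mul_of_nonneg_right h5 (Real.exp_pos _).le
        _ ≤ _ := by rw [one_mul]; exact h7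

/-- **one step** on the domain of the present edges: `b` is adjacent to all other vertices -/
theorem ZE_step (b : V) (E : Finset (Sym2 V)) {u v : V} (huv : s(u, v) ∉ E)
    (hb : ∀ w, w ≠ b → s(b, w) ∈ E) {R : ℝ} (hR : 0 < R)
    (h : ∀ th : V → ℝ, (th u - th v) ^ 2 ≤ R * ∑ e ∈ E, sd th e) :
    Real.exp (-R / 2) * ZE b E ≤ ZE b (insert s(u, v) E) := by
  have h1 := BL.edge_step_cut (BL.dif b u v) hR (stpF_LC b E u v hR hb h)
  rw [ZE_eq, ZE_eq]
  refine h1.trans (le_of_eq ?_)
  refine integral_congr_ae (Filter.Eventually.of_forall fun t => ?_)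
  show (∏ e ∈ E, cc (ext b t) e) * ct (ext b t u - ext b t v) =
    ∏ e ∈ insert s(u, v) E, cc (ext b t) e
  rw [Finset.prod_insert huv, mul_comm]
  rfl

end MP_a3e05c_co.NC
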