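import Pool.Agent.Lib.MP_a3e05c_co.NC.Arc
import Pool.Agent.Lib.MP_a3e05c_co.NC.StepF

/-!
# EULER, block NC: the comparison for the integral over the domain given by the present edges
-/

open Finset

namespace MP_a3e05c_co.NC

variable {V : Type} [Fintype V] [DecidableEq V]

/-- `ZE (KE \ F)` against `ZE KE`, the gauge vertex `b` does not meet `F` -/
theorem arc_ratioE (b : V) {M : ℕ} (hn : 2 * M + 2 < Fintype.card V)
    (F : Finset (Sym2 V)) (hF : F ⊆ KE V) (hb : fd F b = 0) (hM : ∀ v, fd F v ≤ M) :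
    Real.exp (-(XF F M)) * ZE b (KE V \ F) ≤ ZE b (KE V) := by
  refine ratio_abs (ZE b) hn F hF hM (fun _ _ => ZE_nonneg b _) fun F' hF' u v h R hR hq => ?_
  refine ZE_step b _ (fun h1 => (mem_sdiff.1 h1).2 h) (fun w hw => ?_) hR hq
  rw [mem_sdiff]
  refine ⟨?_, fun h1 => ?_⟩
  · rw [mem_KE]
    simpa using hw.symm
  · have h2 : s(b, w) ∈ F.filter (b ∈ ·) := by
      rw [mem_filter]
      exact ⟨hF' h1, Sym2.mem_mk_left b w⟩
    have h3 : (F.filter (b ∈ ·)).card = 0 := hb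
    rw [card_eq_zero] at h3
    rw [h3] at h2
    exact absurd h2 (notMem_empty _)

/-- the same with the arc integral of the complete graph -/
theorem arc_ratioEZ (b : V) {M : ℕ} (hn : 2 * M + 2 < Fintype.card V)
    (F : Finset (Sym2 V)) (hF : F ⊆ KE V) (hb : fd F b = 0) (hM : ∀ v, fd F v ≤ M) :
    Real.exp (-(XF F M)) * ZE b (KE V \ F) ≤ Z b (KE V) := by
  rw [← ZE_KE]
  exact arc_ratioE b hn F hF hb hM

end MP_a3e05c_co.NC
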