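import Pool.Agent.Lib.MP_a3e05c_co.NC.Defs

/-!
# EULER, block NC: effective resistances in nearly complete graphs
-/

open Finset

namespace MP_a3e05c_co.NC

/-- three term Cauchy-Schwarz -/
theorem cs3 {X Y W α β γ p q r : ℝ} (hα : 0 ≤ α) (hβ : 0 ≤ β) (hγ : 0 ≤ γ) (hp : 0 ≤ p)
    (hq : 0 ≤ q) (hr : 0 ≤ r) (h1 : X ^ 2 ≤ α * p) (h2 : Y ^ 2 ≤ β * q) (h3 : W ^ 2 ≤ γ * r) :
    (X + Y + W) ^ 2 ≤ (α + β + γ) * (p + q + r) := by
  have key : ∀ {x y a b c d : ℝ}, 0 ≤ a → 0 ≤ b → 0 ≤ c → 0 ≤ d → x ^ 2 ≤ a * c → y ^ 2 ≤ b * d →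
      2 * (x * y) ≤ a * d + b * c := by
    intro x y a b c d ha hb hc hd hx hy
    have h4 : (x * y) ^ 2 ≤ (a * d) * (b * c) := by
      calc (x * y) ^ 2 = x ^ 2 * y ^ 2 := by ring
        _ ≤ (a * c) * (b * d) := mul_le_mul hx hy (sq_nonneg _) (mul_nonneg ha hc)
        _ = (a * d) * (b * c) := by ring
    have h5 : 0 ≤ a * d + b * c := by positivity
    have h6 : (2 * (x * y)) ^ 2 ≤ (a * d + b * c) ^ 2 := by nlinarith [sq_nonneg (a * d - b * c)]
    exact le_of_abs_le (abs_le_of_sq_le_sq h6 h5)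
  have e1 := key hα hβ hp hq h1 h2
  have e2 := key hβ hγ hq hr h2 h3
  have e3 := key hα hγ hp hr h1 h3
  nlinarith

variable {V : Type} [Fintype V] [DecidableEq V]

/-- double sums over ordered pairs -/
theorem two_sum {E : Finset (Sym2 V)} (hE : E ⊆ KE V) (g : Sym2 V → ℝ) :
    ∑ u : V, ∑ v : V, (if s(u, v) ∈ E then g s(u, v) else 0) = 2 * ∑ e ∈ E, g e := by
  rw [← Finset.sum_product', Finset.univ_product_univ, ← Finset.sum_filter]
  have h1 : ∀ p ∈ univ.filter (fun p : V × V => s(p.1, p.2) ∈ E), s(p.1, p.2) ∈ E := by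
    intro p hp
    exact (mem_filter.1 hp).2
  rw [← Finset.sum_fiberwise_of_maps_to h1, Finset.mul_sum]
  refine Finset.sum_congr rfl fun e he => ?_
  have h2 : ∑ p ∈ univ.filter (fun p : V × V => s(p.1, p.2) ∈ E) with s(p.1, p.2) = e,
      g s(p.1, p.2) = ∑ p ∈ univ.filter (fun p : V × V => s(p.1, p.2) = e), g e := by
    refine Finset.sum_congr ?_ fun p hp => ?_
    · ext p
      simp only [mem_filter, mem_univ, true_and]
      constructor
      · rintro ⟨-, h⟩; exact h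
      · rintro h; exact ⟨h ▸ he, h⟩
    · rw [(mem_filter.1 hp).2]
  rw [h2, Finset.sum_const, nsmul_eq_mul]
  congr 1
  have h3 : ¬ e.IsDiag := mem_KE.1 (hE he)
  induction e using Sym2.ind with
  | _ x y =>
    have hxy : x ≠ y := by simpa using h3
    have h4 : univ.filter (fun p : V × V => s(p.1, p.2) = s(x, y)) = {(x, y), (y, x)} := by
      ext ⟨p, q⟩
      simp only [mem_filter, mem_univ, true_and, Sym2.eq_iff, mem_insert, mem_singleton,
        Prod.mk.injEq]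
    rw [h4, Finset.card_pair]
    · norm_num
    · intro h
      exact hxy (Prod.mk.inj h).1

/-- the degree as a sum -/
theorem fd_eq (F : Finset (Sym2 V)) (v : V) :
    (fd F v : ℝ) = ∑ x : V, (if s(v, x) ∈ F then (1 : ℝ) else 0) := by
  rw [Finset.sum_boole]
  congr 1
  unfold fd
  symm
  refine Finset.card_bij (fun x _ => s(v, x)) ?_ ?_ ?_
  · intro x hx
    rw [mem_filter] at hx ⊢
    exact ⟨hx.2, Sym2.mem_mk_left _ _⟩
  · intro x _ y _ h
    rcases Sym2.eq_iff.1 h with h1 | h1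
    · exact h1.2
    · rw [h1.2, ← h1.1]
  · intro e he
    rw [mem_filter] at he
    obtain ⟨y, rfl⟩ := Sym2.mem_iff_exists.1 he.2
    exact ⟨y, by rw [mem_filter]; exact ⟨mem_univ _, he.1⟩, rfl⟩

/-- `d = n - 1 - f` -/
theorem deg_eq {F : Finset (Sym2 V)} (hF : F ⊆ KE V) (v : V) :
    ∑ x : V, (if s(v, x) ∈ KE V \ F then (1 : ℝ) else 0) = (Fintype.card V : ℝ) - 1 - fd F v := by
  rw [fd_eq F v]
  have h1 : ∀ x : V, (if s(v, x) ∈ KE V \ F then (1 : ℝ) else 0) +
      (if s(v, x) ∈ F then (1 : ℝ) else 0) = 1 - (if x = v then (1 : ℝ) else 0) := by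
    intro x
    by_cases hx : x = v
    · subst hx
      have h2 : s(x, x) ∉ KE V := by rw [mem_KE]; simp
      have h3 : s(x, x) ∉ F := fun h => h2 (hF h)
      simp [h2, h3]
    · have h2 : s(v, x) ∈ KE V := by rw [mem_KE]; simpa using Ne.symm hx
      by_cases h3 : s(v, x) ∈ F
      · simp [h2, h3, hx]
      · simp [h2, h3, hx]
  have h4 := Finset.sum_congr (rfl : (univ : Finset V) = univ) fun x _ => h1 x
  rw [Finset.sum_add_distrib, Finset.sum_sub_distrib, Finset.sum_ite_eq' univ v] at h4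
  simp only [mem_univ, if_true, sum_const, card_univ, nsmul_eq_mul, mul_one] at h4
  linarith

/-- variance identity -/
theorem var_identity (S : Finset V) (θ : V → ℝ) (m : ℝ) (hm : ∑ x ∈ S, (θ x - m) = 0) :
    ∑ u ∈ S, ∑ v ∈ S, (θ u - θ v) ^ 2 = 2 * S.card * ∑ x ∈ S, (θ x - m) ^ 2 := by
  have h1 : ∀ u ∈ S, ∑ v ∈ S, (θ u - θ v) ^ 2 =
      S.card * (θ u - m) ^ 2 + ∑ x ∈ S, (θ x - m) ^ 2 := by
    intro u _
    have h2 : ∀ v ∈ S, (θ u - θ v) ^ 2 =
        (θ u - m) ^ 2 + (θ v - m) ^ 2 - 2 * (θ u - m) * (θ v - m) := fun v _ => by ring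
    rw [Finset.sum_congr rfl h2, Finset.sum_sub_distrib, Finset.sum_add_distrib, ← Finset.mul_sum,
      hm, Finset.sum_const, nsmul_eq_mul]
    ring
  rw [Finset.sum_congr rfl h1, Finset.sum_add_distrib, ← Finset.mul_sum, Finset.sum_const,
    nsmul_eq_mul]
  ring

/-- the form of a nearly complete graph on `S` -/
theorem form_lower {F : Finset (Sym2 V)} (hF : F ⊆ KE V) {M : ℕ} (hM : ∀ v, fd F v ≤ M)
    (S : Finset V) (θ : V → ℝ) (m : ℝ) (hm : ∑ x ∈ S, (θ x - m) = 0) :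
    2 * ((S.card : ℝ) - 2 * M) * ∑ x ∈ S, (θ x - m) ^ 2 ≤
      ∑ u ∈ S, ∑ v ∈ S, (if s(u, v) ∈ KE V \ F then (θ u - θ v) ^ 2 else 0) := by
  have h1 : ∀ u ∈ S, ∀ v ∈ S, (if s(u, v) ∈ KE V \ F then (θ u - θ v) ^ 2 else 0) ≥
      (θ u - θ v) ^ 2 - (2 * (θ u - m) ^ 2 * (if s(u, v) ∈ F then (1 : ℝ) else 0) +
        2 * (θ v - m) ^ 2 * (if s(v, u) ∈ F then (1 : ℝ) else 0)) := by
    intro u _ v _
    rw [Sym2.eq_swap (a := v) (b := u)]
    by_cases h3 : s(u, v) ∈ F
    · have h4 : s(u, v) ∉ KE V \ F := fun h => (mem_sdiff.1 h).2 h3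
      simp only [h3, h4, if_true, if_false]
      nlinarith [sq_nonneg ((θ u - m) + (θ v - m))]
    · by_cases h4 : u = v
      · subst h4
        have h2 : s(u, u) ∉ KE V := by rw [mem_KE]; simp
        simp [h2, h3]
      · have h2 : s(u, v) ∈ KE V := by rw [mem_KE]; simpa using h4
        simp [h2, h3]
  have h5 : ∀ u ∈ S, ∑ v ∈ S, (if s(u, v) ∈ F then (1 : ℝ) else 0) ≤ M := by
    intro u _
    calc ∑ v ∈ S, (if s(u, v) ∈ F then (1 : ℝ) else 0)
        ≤ ∑ v : V, (if s(u, v) ∈ F then (1 : ℝ) else 0) :=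
          Finset.sum_le_sum_of_subset_of_nonneg (subset_univ _) fun _ _ _ => by
            split_ifs <;> norm_num
      _ = fd F u := (fd_eq F u).symm
      _ ≤ M := by exact_mod_cast hM u
  have h6 : ∑ u ∈ S, ∑ v ∈ S, (2 * (θ u - m) ^ 2 * (if s(u, v) ∈ F then (1 : ℝ) else 0)) ≤
      2 * M * ∑ x ∈ S, (θ x - m) ^ 2 := by
    rw [Finset.mul_sum]
    refine Finset.sum_le_sum fun u hu => ?_
    rw [← Finset.mul_sum]
    have := h5 u hu
    have h7 : 0 ≤ 2 * (θ u - m) ^ 2 := by positivity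
    nlinarith [mul_le_mul_of_nonneg_left this h7]
  have h8 : ∑ u ∈ S, ∑ v ∈ S, (2 * (θ v - m) ^ 2 * (if s(v, u) ∈ F then (1 : ℝ) else 0)) ≤
      2 * M * ∑ x ∈ S, (θ x - m) ^ 2 := by
    rw [Finset.sum_comm]
    exact h6
  calc 2 * ((S.card : ℝ) - 2 * M) * ∑ x ∈ S, (θ x - m) ^ 2
      = ∑ u ∈ S, ∑ v ∈ S, (θ u - θ v) ^ 2 -
        (2 * M * ∑ x ∈ S, (θ x - m) ^ 2 + 2 * M * ∑ x ∈ S, (θ x - m) ^ 2) := by
        rw [var_identity S θ m hm]; ring
    _ ≤ ∑ u ∈ S, ∑ v ∈ S, (θ u - θ v) ^ 2 -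
        (∑ u ∈ S, ∑ v ∈ S, (2 * (θ u - m) ^ 2 * (if s(u, v) ∈ F then (1 : ℝ) else 0)) +
         ∑ u ∈ S, ∑ v ∈ S, (2 * (θ v - m) ^ 2 * (if s(v, u) ∈ F then (1 : ℝ) else 0))) := by
        linarith
    _ = ∑ u ∈ S, ∑ v ∈ S, ((θ u - θ v) ^ 2 -
        (2 * (θ u - m) ^ 2 * (if s(u, v) ∈ F then (1 : ℝ) else 0) +
        2 * (θ v - m) ^ 2 * (if s(v, u) ∈ F then (1 : ℝ) else 0))) := by
        simp only [Finset.sum_sub_distrib, Finset.sum_add_distrib]
    _ ≤ _ := Finset.sum_le_sum fun u hu => Finset.sum_le_sum fun v hv => h1 u hu v hv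

/-- resistance bound for the missing edge `ab` -/
noncomputable def RR (F : Finset (Sym2 V)) (M : ℕ) (a b : V) : ℝ :=
  1 / ((Fintype.card V : ℝ) - 1 - fd F a) + 1 / ((Fintype.card V : ℝ) - 1 - fd F b) +
    ((fd F a : ℝ) + fd F b - 2) / (((Fintype.card V : ℝ) - 2 - 2 * M) *
      (((Fintype.card V : ℝ) - 1 - fd F a) * ((Fintype.card V : ℝ) - 1 - fd F b)))

theorem res_bound {F : Finset (Sym2 V)} (hF : F ⊆ KE V) {M : ℕ} (hM : ∀ v, fd F v ≤ M)
    (hn : 2 * M + 2 < Fintype.card V) {a b : V} (hab : s(a, b) ∈ F) (θ : V → ℝ) :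
    (θ a - θ b) ^ 2 ≤ RR F M a b * ∑ e ∈ KE V \ F, sd θ e := by
  classical
  have hne : a ≠ b := by
    have := mem_KE.1 (hF hab)
    simpa using this
  set n : ℝ := (Fintype.card V : ℝ) with hnn
  set w : V → V → ℝ := fun u v => if s(u, v) ∈ KE V \ F then (1 : ℝ) else 0 with hw
  have wsym : ∀ u v, w u v = w v u := fun u v => by simp only [hw]; rw [Sym2.eq_swap]
  have waa : ∀ u, w u u = 0 := fun u => by
    have h2 : s(u, u) ∉ KE V := by rw [mem_KE]; simp
    simp [hw, h2]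
  have wab : w a b = 0 := by simp [hw, hab]
  have w01 : ∀ u v, w u v = 0 ∨ w u v = 1 := fun u v => by
    simp only [hw]; split_ifs <;> simp
  have wsq : ∀ u v, w u v ^ 2 = w u v := fun u v => by rcases w01 u v with h | h <;> simp [h]
  have wnn : ∀ u v, 0 ≤ w u v := fun u v => by rcases w01 u v with h | h <;> simp [h]
  set da : ℝ := n - 1 - fd F a with hda
  set db : ℝ := n - 1 - fd F b with hdb
  have hMa : (fd F a : ℝ) ≤ M := by exact_mod_cast hM a
  have hMb : (fd F b : ℝ) ≤ M := by exact_mod_cast hM b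
  have hn' : 2 * (M : ℝ) + 2 < n := by rw [hnn]; exact_mod_cast hn
  have hM0 : (0 : ℝ) ≤ M := by positivity
  have hda0 : 0 < da := by rw [hda]; linarith
  have hdb0 : 0 < db := by rw [hdb]; linarith
  have hl0 : 0 < n - 2 - 2 * M := by linarith
  have sa : ∑ x, w a x = da := deg_eq hF a
  have sb : ∑ x, w b x = db := deg_eq hF b
  -- the complement of `{a, b}`
  set S : Finset V := (univ.erase a).erase b with hS
  have split : ∀ g : V → ℝ, ∑ x, g x = g a + (g b + ∑ x ∈ S, g x) := by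
    intro g
    rw [← Finset.add_sum_erase univ g (mem_univ a),
      ← Finset.add_sum_erase (univ.erase a) g (mem_erase.2 ⟨hne.symm, mem_univ b⟩)]
  have hcard : (S.card : ℝ) = n - 2 := by
    have h1 := split fun _ => (1 : ℝ)
    simp only [sum_const, card_univ, nsmul_eq_mul, mul_one] at h1
    rw [hnn]; linarith
  set T : ℝ := ∑ e ∈ KE V \ F, sd θ e with hT
  have hT2 : ∑ u, ∑ v, w u v * (θ u - θ v) ^ 2 = 2 * T := by
    rw [hT, ← two_sum (sdiff_subset) (sd θ)]
    refine Finset.sum_congr rfl fun u _ => Finset.sum_congr rfl fun v _ => ?_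
    simp only [hw, sd_mk]
    split_ifs <;> simp
  set pa : ℝ := ∑ x, w a x * (θ a - θ x) ^ 2 with hpa
  set pb : ℝ := ∑ x, w b x * (θ b - θ x) ^ 2 with hpb
  set q : ℝ := ∑ u ∈ S, ∑ v ∈ S, w u v * (θ u - θ v) ^ 2 with hq
  have hTs : 2 * T = 2 * pa + 2 * pb + q := by
    rw [← hT2, split fun u => ∑ v, w u v * (θ u - θ v) ^ 2]
    have h1 : ∀ u, ∑ v, w u v * (θ u - θ v) ^ 2 = w u a * (θ u - θ a) ^ 2 +
        (w u b * (θ u - θ b) ^ 2 + ∑ v ∈ S, w u v * (θ u - θ v) ^ 2) := fun u =>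
      split fun v => w u v * (θ u - θ v) ^ 2
    have h2 : ∑ u ∈ S, ∑ v, w u v * (θ u - θ v) ^ 2 =
        ∑ u ∈ S, w u a * (θ u - θ a) ^ 2 + (∑ u ∈ S, w u b * (θ u - θ b) ^ 2 + q) := by
      rw [hq, ← Finset.sum_add_distrib, ← Finset.sum_add_distrib]
      exact Finset.sum_congr rfl fun u _ => h1 u
    have h3 : ∑ u ∈ S, w u a * (θ u - θ a) ^ 2 = pa := by
      rw [hpa, split fun x => w a x * (θ a - θ x) ^ 2, waa, wab]
      simp only [zero_mul, zero_add]
      refine Finset.sum_congr rfl fun u _ => ?_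
      rw [wsym u a]; ring
    have h4 : ∑ u ∈ S, w u b * (θ u - θ b) ^ 2 = pb := by
      rw [hpb, split fun x => w b x * (θ b - θ x) ^ 2, waa, wsym b a, wab]
      simp only [zero_mul, zero_add]
      refine Finset.sum_congr rfl fun u _ => ?_
      rw [wsym u b]; ring
    rw [h2, h3, h4]
    simp only [← hpa, ← hpb]
    ring
  -- mean on `S`
  obtain ⟨m, hm⟩ : ∃ m : ℝ, ∑ x ∈ S, (θ x - m) = 0 := by
    by_cases h0 : S.card = 0
    · exact ⟨0, by rw [Finset.card_eq_zero.1 h0]; simp⟩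
    · refine ⟨(∑ x ∈ S, θ x) / S.card, ?_⟩
      have h1 : (S.card : ℝ) ≠ 0 := by exact_mod_cast h0
      rw [Finset.sum_sub_distrib, Finset.sum_const, nsmul_eq_mul]
      field_simp
      ring
  set vS : ℝ := ∑ x ∈ S, (θ x - m) ^ 2 with hvS
  have hq0 : (n - 2 - 2 * M) * vS ≤ q / 2 := by
    have h1 := form_lower hF hM S θ m hm
    have h2 : ∑ u ∈ S, ∑ v ∈ S, (if s(u, v) ∈ KE V \ F then (θ u - θ v) ^ 2 else 0) = q := by
      rw [hq]
      refine Finset.sum_congr rfl fun u _ => Finset.sum_congr rfl fun v _ => ?_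
      simp only [hw]
      split_ifs <;> simp
    rw [h2, hcard, ← hvS] at h1
    linarith
  -- the coefficients
  set c : V → ℝ := fun x => w a x / da - w b x / db with hc
  have sS : ∑ x ∈ S, w a x = da := by
    have := split fun x => w a x
    rw [sa, waa, wab] at this
    linarith
  have sSb : ∑ x ∈ S, w b x = db := by
    have := split fun x => w b x
    rw [sb, waa, wsym b a, wab] at this
    linarith
  have hcsum : ∑ x ∈ S, c x = 0 := by
    simp only [hc]
    rw [Finset.sum_sub_distrib, ← Finset.sum_div, ← Finset.sum_div, sS, sSb,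
      div_self hda0.ne', div_self hdb0.ne']
    ring
  have hc2 : ∑ x ∈ S, c x ^ 2 ≤ ((fd F a : ℝ) + fd F b - 2) / (da * db) := by
    have h1 : ∀ x ∈ S, c x ^ 2 ≤ w a x / da ^ 2 + w b x / db ^ 2 -
        2 * (w a x + w b x - 1) / (da * db) := by
      intro x _
      have h2 : c x ^ 2 = w a x ^ 2 / da ^ 2 + w b x ^ 2 / db ^ 2 -
          2 * (w a x * w b x) / (da * db) := by
        simp only [hc]
        field_simp
        ring
      rw [h2, wsq, wsq]
      have h3 : w a x + w b x - 1 ≤ w a x * w b x := by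
        rcases w01 a x with h | h <;> rcases w01 b x with h' | h' <;> rw [h, h'] <;> norm_num
      have h4 : 2 * (w a x + w b x - 1) / (da * db) ≤ 2 * (w a x * w b x) / (da * db) := by
        apply div_le_div_of_nonneg_right _ (by positivity)
        linarith
      linarith
    calc ∑ x ∈ S, c x ^ 2 ≤ ∑ x ∈ S, (w a x / da ^ 2 + w b x / db ^ 2 -
        2 * (w a x + w b x - 1) / (da * db)) := Finset.sum_le_sum h1
      _ = da / da ^ 2 + db / db ^ 2 - 2 * (da + db - (n - 2)) / (da * db) := by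
        rw [Finset.sum_sub_distrib, Finset.sum_add_distrib, ← Finset.sum_div, ← Finset.sum_div,
          ← Finset.sum_div, ← Finset.mul_sum, Finset.sum_sub_distrib, Finset.sum_add_distrib,
          sS, sSb, Finset.sum_const, nsmul_eq_mul, hcard]
        ring
      _ = ((fd F a : ℝ) + fd F b - 2) / (da * db) := by
        have h5 : (fd F a : ℝ) = n - 1 - da := by rw [hda]; ring
        have h6 : (fd F b : ℝ) = n - 1 - db := by rw [hdb]; ring
        rw [h5, h6]
        field_simp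
        ring
  -- the three parts
  have hX : ((1 / da) * ∑ x, w a x * (θ a - θ x)) ^ 2 ≤ (1 / da) * pa := by
    have h1 : (∑ x, w a x * (θ a - θ x)) ^ 2 ≤ (∑ x, w a x) * pa := by
      have := Finset.sum_mul_sq_le_sq_mul_sq univ (fun x => w a x) fun x => w a x * (θ a - θ x)
      have h2 : ∀ x, w a x * (w a x * (θ a - θ x)) = w a x * (θ a - θ x) := fun x => by
        rw [← mul_assoc, ← sq, wsq]
      have h3 : ∀ x, (w a x * (θ a - θ x)) ^ 2 = w a x * (θ a - θ x) ^ 2 := fun x => by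
        rw [mul_pow, wsq]
      simp only [h2, h3, wsq] at this
      exact this
    rw [sa] at h1
    rw [mul_pow]
    calc (1 / da) ^ 2 * (∑ x, w a x * (θ a - θ x)) ^ 2 ≤ (1 / da) ^ 2 * (da * pa) :=
          mul_le_mul_of_nonneg_left h1 (by positivity)
      _ = (1 / da) * pa := by field_simp
  have hW : ((1 / db) * ∑ x, w b x * (θ x - θ b)) ^ 2 ≤ (1 / db) * pb := by
    have h1 : (∑ x, w b x * (θ x - θ b)) ^ 2 ≤ (∑ x, w b x) * pb := by
      have := Finset.sum_mul_sq_le_sq_mul_sq univ (fun x => w b x) fun x => w b x * (θ x - θ b)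
      have h2 : ∀ x, w b x * (w b x * (θ x - θ b)) = w b x * (θ x - θ b) := fun x => by
        rw [← mul_assoc, ← sq, wsq]
      have h3 : ∀ x, (w b x * (θ x - θ b)) ^ 2 = w b x * (θ b - θ x) ^ 2 := fun x => by
        rw [mul_pow, wsq]; ring
      simp only [h2, h3, wsq] at this
      exact this
    rw [sb] at h1
    rw [mul_pow]
    calc (1 / db) ^ 2 * (∑ x, w b x * (θ x - θ b)) ^ 2 ≤ (1 / db) ^ 2 * (db * pb) :=
          mul_le_mul_of_nonneg_left h1 (by positivity)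
      _ = (1 / db) * pb := by field_simp
  have hY : (∑ x ∈ S, c x * θ x) ^ 2 ≤
      (((fd F a : ℝ) + fd F b - 2) / ((n - 2 - 2 * M) * (da * db))) * (q / 2) := by
    have h1 : ∑ x ∈ S, c x * θ x = ∑ x ∈ S, c x * (θ x - m) := by
      have h2 : ∀ x ∈ S, c x * (θ x - m) = c x * θ x - m * c x := fun x _ => by ring
      rw [Finset.sum_congr rfl h2, Finset.sum_sub_distrib, ← Finset.mul_sum, hcsum]
      ring
    rw [h1]
    have h3 := Finset.sum_mul_sq_le_sq_mul_sq S c fun x => θ x - m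
    have h4 : 0 ≤ vS := Finset.sum_nonneg fun _ _ => sq_nonneg _
    have h5 : 0 ≤ ((fd F a : ℝ) + fd F b - 2) / (da * db) :=
      (Finset.sum_nonneg fun _ _ => sq_nonneg _).trans hc2
    calc (∑ x ∈ S, c x * (θ x - m)) ^ 2 ≤ (∑ x ∈ S, c x ^ 2) * vS := h3
      _ ≤ ((fd F a : ℝ) + fd F b - 2) / (da * db) * vS := mul_le_mul_of_nonneg_right hc2 h4
      _ ≤ ((fd F a : ℝ) + fd F b - 2) / (da * db) * (q / 2 / (n - 2 - 2 * M)) := by
          apply mul_le_mul_of_nonneg_left _ h5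
          rw [le_div_iff₀ hl0]
          linarith
      _ = _ := by field_simp
  have hdec : θ a - θ b = (1 / da) * ∑ x, w a x * (θ a - θ x) + ∑ x ∈ S, c x * θ x +
      (1 / db) * ∑ x, w b x * (θ x - θ b) := by
    have h1 : ∑ x, w a x * (θ a - θ x) = da * θ a - ∑ x ∈ S, w a x * θ x := by
      have h2 : ∀ x, w a x * (θ a - θ x) = θ a * w a x - w a x * θ x := fun x => by ring
      simp only [h2]
      rw [Finset.sum_sub_distrib, ← Finset.mul_sum, sa, split fun x => w a x * θ x, waa, wab]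
      ring
    have h3 : ∑ x, w b x * (θ x - θ b) = ∑ x ∈ S, w b x * θ x - db * θ b := by
      have h2 : ∀ x, w b x * (θ x - θ b) = w b x * θ x - θ b * w b x := fun x => by ring
      simp only [h2]
      rw [Finset.sum_sub_distrib, ← Finset.mul_sum, sb, split fun x => w b x * θ x, waa,
        wsym b a, wab]
      ring
    have h4 : ∑ x ∈ S, c x * θ x = (∑ x ∈ S, w a x * θ x) / da - (∑ x ∈ S, w b x * θ x) / db := by
      rw [Finset.sum_div, Finset.sum_div, ← Finset.sum_sub_distrib]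
      refine Finset.sum_congr rfl fun x _ => ?_
      simp only [hc]
      ring
    rw [h1, h3, h4]
    field_simp
    ring
  have hpa0 : 0 ≤ pa := Finset.sum_nonneg fun x _ => mul_nonneg (wnn _ _) (sq_nonneg _)
  have hpb0 : 0 ≤ pb := Finset.sum_nonneg fun x _ => mul_nonneg (wnn _ _) (sq_nonneg _)
  have hq0' : 0 ≤ q := Finset.sum_nonneg fun u _ => Finset.sum_nonneg fun x _ =>
    mul_nonneg (wnn _ _) (sq_nonneg _)
  have hβ : 0 ≤ ((fd F a : ℝ) + fd F b - 2) / ((n - 2 - 2 * M) * (da * db)) := by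
    have h5 : 0 ≤ ((fd F a : ℝ) + fd F b - 2) / (da * db) :=
      (Finset.sum_nonneg fun _ _ => sq_nonneg _).trans hc2
    have h6 : ((fd F a : ℝ) + fd F b - 2) / ((n - 2 - 2 * M) * (da * db)) =
        ((fd F a : ℝ) + fd F b - 2) / (da * db) / (n - 2 - 2 * M) := by
      field_simp
    rw [h6]
    positivity
  have hfin := cs3 (by positivity : (0 : ℝ) ≤ 1 / da) hβ (by positivity : (0 : ℝ) ≤ 1 / db)
    hpa0 (by positivity : 0 ≤ q / 2) hpb0 hX hY hW
  rw [hdec]
  refine hfin.trans (le_of_eq ?_)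
  have hTT : T = pa + q / 2 + pb := by linarith
  rw [hTT]
  unfold RR
  simp only [← hnn, ← hda, ← hdb]
  ring

end MP_a3e05c_co.NC
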